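import Pool.Agent.Q230.CN.Hard

/-!
# Recognising graphs whose core equals the nucleus is NP-hard and coNP-hard

Both reductions start from 3SAT. Let `H` be the graph with a triangle for every one of the `m`
clauses in which contradictory literals are joined, so that `α(H) ≤ m` with equality iff the formula
is satisfiable. The first graph is the join of `H`, an independent set with `m` vertices and a large
clique; the second one is the join of `H` with an additional isolated vertex, two independent sets
with `m` vertices and a large clique. The clique makes the nucleus empty.
-/

set_option autoImplicit false

namespace Pool.Agent.Results.MP_54ee58_lc.CoreNucleusHard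

open Pool.Agent.NPC Pool.Agent.Q230.CN

/-- **Main theorem.** Given the adjacency matrix of a graph `G`, it is NP-hard and also coNP-hard
to decide whether `core(G) = nucleus(G)`. -/
theorem result : NPHardP CoreIsNucleus ∧ CoNPHardP CoreIsNucleus :=
  ⟨np_hard.toHardI.toNPHardP, conp_hard.toCoNPHardP⟩

end Pool.Agent.Results.MP_54ee58_lc.CoreNucleusHard
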